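import Pool.Agent.Lib.MP_8ec86e_an.Suff
import Pool.Agent.Lib.MP_8ec86e_an.Nec
import Pool.Agent.Lib.MP_8ec86e_an.Tensor

open Filter Topology Pool.Agent.Lib.MP_8ec86e_an

/-- The Weak Greedy Algorithm with weakness sequence `t` converges for the bilinear dictionary
(for every function and every realization) if and only if `t` is not in the class `𝒱`. -/
theorem Pool.Agent.Results.MP_8ec86e_an.Characterization.result
    (t : ℕ → ℝ) (ht : ∀ k, 1 ≤ k → 0 ≤ t k ∧ t k ≤ 1) :
    WGAConverges t ↔ ¬ InV t := by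
  constructor
  · intro hconv hV
    obtain ⟨e, he⟩ := exists_orthonormal
    obtain ⟨φ, r, hr, hnorm⟩ := exists_bad_realization tensL inner_tens e he Pi2 mem_Pi2 t ht hV
    have h1 := hconv (r 0) φ r ⟨rfl, hr⟩
    have h2 : Tendsto (fun m => r 0 - (r 0 - r m)) atTop (𝓝 (r 0 - r 0)) :=
      tendsto_const_nhds.sub h1
    simp only [sub_sub_cancel, sub_self] at h2
    have h3 : Tendsto (fun m => ‖r m‖ ^ 2) atTop (𝓝 (‖(0 : L2Sq)‖ ^ 2)) := h2.norm.pow 2
    have h4 := ge_of_tendsto' h3 hnorm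
    rw [norm_zero] at h4
    norm_num at h4
  · intro hV f φ r hr
    have h1 := tendsto_zero_of_not_inV Pi2 norm_of_mem_Pi2 dense_span_Pi2 t
      (fun k hk => (ht k hk).1) hV φ r hr.2
    simpa using (tendsto_const_nhds (x := f)).sub h1
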