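import Pool.Agent.Lib.MP_8ec86e_an.PMain
import Pool.Agent.Lib.MP_8ec86e_an.Tensor

open Filter Topology Pool.Agent.Lib.MP_8ec86e_an

/-- Let the weakness sequence `t` lie in the class `𝒱`. All realizations of the Weak Greedy
Algorithm for `f` converge to `f` if and only if `f` is a combination of `n` products and
`n + m ≤ 2 * #{1 ≤ k ≤ m | t k = 1}` for some `n`, `m`. -/
theorem Pool.Agent.Results.MP_8ec86e_an.PointwiseInV.result
    (t : ℕ → ℝ) (ht : ∀ k, 1 ≤ k → 0 ≤ t k ∧ t k ≤ 1) (hV : InV t) (f : L2Sq) :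
    (∀ φ r : ℕ → L2Sq, IsRealization t f φ r → Tendsto (fun m => f - r m) atTop (𝓝 f)) ↔
      ∃ (n m : ℕ) (c : Fin n → ℝ) (g : Fin n → L2Sq), (∀ i, g i ∈ Pi2) ∧ f = ∑ i, c i • g i ∧
        n + m ≤ 2 * ((Finset.Icc 1 m).filter fun k => t k = 1).card := by
  constructor
  · intro hconv
    by_contra hcon
    obtain ⟨e, he⟩ := exists_orthonormal
    obtain ⟨φ, r, h0, hr, ε, hε, hnorm⟩ := exists_bad_real inner_tens e he Pi2 mem_Pi2
      dense_span_Pi2 t ht hV f fun n m c g hg hf => not_le.mp fun h => hcon ⟨n, m, c, g, hg, hf, h⟩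
    have h2 : Tendsto (fun m => f - (f - r m)) atTop (𝓝 (f - f)) :=
      tendsto_const_nhds.sub (hconv φ r ⟨h0, hr⟩)
    simp only [sub_sub_cancel, sub_self] at h2
    have h3 : Tendsto (fun m => ‖r m‖ ^ 2) atTop (𝓝 (‖(0 : L2Sq)‖ ^ 2)) := h2.norm.pow 2
    have h4 := ge_of_tendsto h3 hnorm
    rw [norm_zero] at h4
    nlinarith
  · rintro ⟨n, m, c, g, hg, hf, h⟩ φ r hr
    refine tendsto_const_nhds.congr' ?_
    filter_upwards [eventually_zero inner_tens Pi2 mem_Pi2 dense_span_Pi2 t φ r hr.2 c g hg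
      (hr.1.trans hf) h] with m hm
    rw [hm, sub_zero]
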